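import Pool.Agent.Run7.h516.Main
import Pool.Agent.Run7.h516.Necessity

/-!
# Finite-dimensional normed spaces in which all Chebyshev sets are convex

Every Chebyshev set of a finite-dimensional real normed space `E` is convex if and only if every
exposed point of the unit ball of `E` lying on the unit sphere is a smooth point.
-/

open Run7.h516 in
/-- In a finite-dimensional real normed space all Chebyshev sets are convex if and only if every
exposed point of the unit sphere is a smooth point. -/
theorem Pool.Agent.Results.MP_6b15b2_an.ExposedSmooth.result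
    {E : Type*} [NormedAddCommGroup E] [NormedSpace ℝ E] [FiniteDimensional ℝ E] :
    (∀ G : Set E, (∀ x : E, ∃! g : E, g ∈ G ∧ ∀ h ∈ G, ‖x - g‖ ≤ ‖x - h‖) → Convex ℝ G) ↔
      ∀ x ∈ (Metric.closedBall (0 : E) 1).exposedPoints ℝ, ‖x‖ = 1 →
        ∃! f : E →L[ℝ] ℝ, ‖f‖ = 1 ∧ f x = 1 := by
  constructor
  · intro hC x hx hx1
    exact necessity hC hx hx1
  · intro hsm G hG
    obtain ⟨P, hP⟩ := exists_proj hG
    apply hP.convex_of_V0_empty
    apply hP.V0_empty
    intro x hx f g hf hfx hg hgx
    have hxn : ‖x‖ = 1 := by
      apply le_antisymm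
      · have := hx.1
        rwa [mem_closedBall_zero_iff] at this
      · have := apply_le_norm hf.le x
        rwa [hfx] at this
    exact (hsm x hx hxn).unique ⟨hf, hfx⟩ ⟨hg, hgx⟩
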